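import Pool.Agent.Helper9.Stab.BivL

/-! Disjoint unions: the collapse onto a summand, and two formal consequences of the invertibility
of a class `P → X × ∐ C_i` given by its components. -/

open Topology Filter Set

noncomputable section

namespace Pool.Agent.Helper65.Stab

open Pool.Agent.Helper1.Stab Pool.Agent.Helper9.Stab

section Sigma
variable {n : ℕ} {C : Fin n → LC}

/-- the collapse of the disjoint union onto a summand, as a function -/
def prFun (j : Fin n) (x : Σ i : Fin n, C i) : OnePoint (C j) :=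
  if h : x.1 = j then ((h ▸ x.2 : C j) : OnePoint (C j)) else OnePoint.infty

theorem prFun_self (j : Fin n) (x : C j) : prFun j ⟨j, x⟩ = (x : OnePoint (C j)) := by
  unfold prFun
  rw [dif_pos rfl]

theorem prFun_ne {i j : Fin n} (h : i ≠ j) (x : C i) :
    prFun (C := C) j ⟨i, x⟩ = OnePoint.infty := by
  unfold prFun
  rw [dif_neg h]

theorem prFun_set (j : Fin n) (V : Set (C j)) :
    {k : Σ i : Fin n, C i | ∃ l ∈ V, prFun j k = (l : OnePoint (C j))} =
      (fun x : C j => (⟨j, x⟩ : Σ i : Fin n, C i)) '' V := by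
  ext ⟨i, x⟩
  constructor
  · rintro ⟨l, hl, h⟩
    by_cases hij : i = j
    · subst hij
      rw [prFun_self] at h
      exact ⟨l, hl, by rw [← OnePoint.coe_injective h]⟩
    · rw [prFun_ne hij] at h
      exact absurd h (OnePoint.infty_ne_coe l)
  · rintro ⟨l, hl, h⟩
    rw [← h]
    exact ⟨l, hl, prFun_self j l⟩

variable (C) in
/-- the disjoint union -/
abbrev Sg [LocallyCompactSpace (Σ i : Fin n, C i)] : LC := ⟨Σ i : Fin n, C i⟩

variable [LocallyCompactSpace (Σ i : Fin n, C i)]

/-- the collapse of the disjoint union onto a summand -/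
def pr (j : Fin n) : PMap (Sg C) (C j).plus :=
  PMap.mk' (K := Sg C) (L := C j) (prFun j)
    (fun V hV => by
      rw [prFun_set]
      exact isOpenMap_sigmaMk (σ := fun i : Fin n => (C i : Type)) (i := j) V hV)
    (fun D hD => by
      rw [prFun_set]
      exact hD.image (continuous_sigmaMk (σ := fun i : Fin n => (C i : Type)) (i := j)))

theorem pr_self (j : Fin n) (f : PMap (C j) (Sg C).plus)
    (hf : ∀ x, f x = OnePoint.some (X := Sg C) ⟨j, x⟩) : (pr j).comp f = PMap.id (C j) := by
  ext x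
  show (pr j).plus (f x) = _
  rw [hf]
  exact prFun_self j x

theorem pr_ne {i j : Fin n} (h : i ≠ j) (f : PMap (C i) (Sg C).plus)
    (hf : ∀ x, f x = OnePoint.some (X := Sg C) ⟨i, x⟩) :
    (pr j).comp f = PMap.zero (C i) (C j).plus := by
  ext x
  show (pr j).plus (f x) = _
  rw [hf]
  exact prFun_ne h x

end Sigma

variable (R : Biv)

/-- product with the identity, as a homomorphism -/
def tensH (K L Z : LC) : R.Hom K L →+ R.Hom (K.prod Z) (L.prod Z) :=
  AddMonoidHom.mk' (fun x => R.tens x Z) (fun x y => R.tens_add x y Z)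

theorem tens_sum {K L Z : LC} {ι : Type} (s : Finset ι) (f : ι → R.Hom K L) :
    R.tens (∑ i ∈ s, f i) Z = ∑ i ∈ s, R.tens (f i) Z := map_sum (tensH R K L Z) f s

theorem comp_sum {K L M : LC} {ι : Type} (s : Finset ι) (x : R.Hom K L) (f : ι → R.Hom L M) :
    R.comp x (∑ i ∈ s, f i) = ∑ i ∈ s, R.comp x (f i) := map_sum (preH R x M) f s

theorem sum_comp {K L M : LC} {ι : Type} (s : Finset ι) (f : ι → R.Hom K L) (y : R.Hom L M) :
    R.comp (∑ i ∈ s, f i) y = ∑ i ∈ s, R.comp (f i) y := map_sum (postH R y K) f s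

theorem ltens_zero (Z : LC) {K L : LC} : R.ltens Z (0 : R.Hom K L) = 0 :=
  map_zero (ltensH R Z K L)

/-- joint injectivity of the components -/
theorem comps_injective {n : ℕ} {P X D : LC} {C : Fin n → LC} (t : ∀ i, R.Hom P (X.prod (C i)))
    (inc : ∀ i, PMap (C i) D.plus) {K Z : LC} (s : R.Hom ((X.prod D).prod Z) (P.prod Z))
    (hs : R.comp (R.tens (∑ i : Fin n, R.comp (t i) (R.ltens X (R.J (inc i)))) Z) s =
      R.J (PMap.id _)) (x : R.Hom K (P.prod Z))
    (h : ∀ i, R.comp x (R.tens (t i) Z) = 0) : x = 0 := by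
  have h1 : R.comp x (R.tens (∑ i : Fin n, R.comp (t i) (R.ltens X (R.J (inc i)))) Z) = 0 := by
    rw [tens_sum, comp_sum]
    refine Finset.sum_eq_zero fun i _ => ?_
    rw [R.tens_comp, ← R.assoc, h i, z_comp]
  rw [← R.comp_id x, ← hs, ← R.assoc, h1, z_comp]

/-- a component in terms of the total class -/
theorem comps_pr {n : ℕ} {P X : LC} {C : Fin n → LC} [LocallyCompactSpace (Σ i : Fin n, C i)]
    (t : ∀ i, R.Hom P (X.prod (C i))) (inc : ∀ i, PMap (C i) (Sg C).plus)
    (hinc : ∀ i x, inc i x = OnePoint.some (X := Sg C) ⟨i, x⟩) (j : Fin n) :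
    R.comp (∑ i : Fin n, R.comp (t i) (R.ltens X (R.J (inc i)))) (R.ltens X (R.J (pr j))) =
      t j := by
  rw [sum_comp, Finset.sum_eq_single j]
  · rw [R.assoc, ← ltens_comp, ← R.J_comp, pr_self j (inc j) (hinc j), ltens_id, R.comp_id]
  · intro i _ hij
    rw [R.assoc, ← ltens_comp, ← R.J_comp, pr_ne hij (inc i) (hinc i), R.J_zero, ltens_zero,
      c_zero]
  · intro h
    exact absurd (Finset.mem_univ j) h

/-- a section of the projection, if the `j`-th summand is a point and the `j`-th component is the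
projection -/
theorem comps_section {n : ℕ} {P X : LC} {C : Fin n → LC} [LocallyCompactSpace (Σ i : Fin n, C i)]
    (t : ∀ i, R.Hom P (X.prod (C i))) (inc : ∀ i, PMap (C i) (Sg C).plus)
    (hinc : ∀ i x, inc i x = OnePoint.some (X := Sg C) ⟨i, x⟩) (s : R.Hom (X.prod (Sg C)) P)
    (hs : R.comp s (∑ i : Fin n, R.comp (t i) (R.ltens X (R.J (inc i)))) = R.J (PMap.id _))
    (j : Fin n) (e : R.Hom (X.prod (C j)) X) (e' : R.Hom X (X.prod (C j)))
    (he : R.comp e' e = R.J (PMap.id X)) (p : R.Hom P X) (hp : R.comp (t j) e = p) :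
    ∃ s : R.Hom X P, R.comp s p = R.J (PMap.id X) := by
  refine ⟨R.comp e' (R.comp (R.ltens X (R.J (inc j))) s), ?_⟩
  have h1 : R.comp s (t j) = R.ltens X (R.J (pr j)) := by
    rw [← comps_pr R t inc hinc j, ← R.assoc, hs, R.id_comp]
  rw [← hp, R.assoc, R.assoc, ← R.assoc s, h1, ← R.assoc (R.ltens X (R.J (inc j))), ← ltens_comp,
    ← R.J_comp, pr_self j (inc j) (hinc j), ltens_id, R.id_comp, he]

end Pool.Agent.Helper65.Stab
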